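import Pool.Graph.R_seed8.H739R3.SQ.D

set_option autoImplicit false

/-!
# From point sets to infinite sequences, extreme discrepancy
-/

namespace Pool.Agent.H610.Seq

open MeasureTheory Filter
open Pool.Agent

/-- `B` is an axis-parallel box contained in `[0,1)^d`: a product of subintervals of `[0,1)` of any
kind (open, closed, half-open; `Set.OrdConnected` subsets of `ℝ` are exactly the intervals). -/
def IsBox {d : ℕ} (B : Set (Fin d → ℝ)) : Prop :=
  ∃ I : Fin d → Set ℝ, (∀ i, (I i).OrdConnected ∧ I i ⊆ Set.Ico 0 1) ∧ B = Set.univ.pi I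

open Classical in
/-- `A_N(B)`: the number of indices `0 ≤ n < N` with `z_n ∈ B`. -/
noncomputable def countIn {d : ℕ} (z : ℕ → Fin d → ℝ) (N : ℕ) (B : Set (Fin d → ℝ)) : ℕ :=
  ((Finset.range N).filter (fun n => z n ∈ B)).card

/-- `D_N`: the (extreme) discrepancy of the first `N` points of the sequence `z`, the supremum of
`|A_N(B) / N - λ(B)|` over all axis-parallel boxes `B` contained in `[0,1)^d`. -/
noncomputable def discrepancy {d : ℕ} (z : ℕ → Fin d → ℝ) (N : ℕ) : ENNReal :=
  ⨆ (B : Set (Fin d → ℝ)) (_ : IsBox B),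
    ENNReal.ofReal |(countIn z N B : ℝ) / N - (volume B).toReal|

lemma disc_le {d : ℕ} {z : ℕ → Fin d → ℝ} {N : ℕ} {E : ℝ} (hN : 0 < N)
    (hz : ∀ n j, 0 ≤ z n j ∧ z n j < 1) (h : H739SQ.SB z N E) :
    discrepancy z N ≤ ENNReal.ofReal (2 ^ d * E / N) := by
  classical
  have hN0 : (0:ℝ) < N := by exact_mod_cast hN
  refine iSup₂_le ?_
  rintro B ⟨I, hI, rfl⟩
  apply ENNReal.ofReal_le_ofReal
  have h1 := H739SQ.all_boxes (fun n j => (hz n j).2) h I hI
  have h2 : H739SQ.cU z N I = (countIn z N (Set.univ.pi I) : ℝ) := by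
    unfold H739SQ.cU countIn
    rw [Finset.card_filter]
    push_cast
    refine Finset.sum_congr rfl fun k _ => ?_
    simp only [Set.mem_univ_pi]
  have h3 : (volume (Set.univ.pi I)).toReal = ∏ j, (volume (I j)).toReal := by
    rw [volume_pi_pi, ENNReal.toReal_prod]
  rw [h2] at h1
  rw [h3]
  have e : (countIn z N (Set.univ.pi I) : ℝ) / N - ∏ j, (volume (I j)).toReal =
      ((countIn z N (Set.univ.pi I) : ℝ) - N * ∏ j, (volume (I j)).toReal) / N := by
    field_simp
  rw [e, abs_div, abs_of_pos hN0]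
  exact div_le_div_of_nonneg_right h1 hN0.le

lemma one_lt_log_three : 1 < Real.log 3 := by
  rw [Real.lt_log_iff_exp_lt (by norm_num)]
  have h1 := Real.exp_one_lt_d9
  linarith

lemma one_lt_log {N : ℕ} (hN : 3 ≤ N) : 1 < Real.log N := by
  refine one_lt_log_three.trans_le (Real.log_le_log (by norm_num) (by exact_mod_cast hN))

/-- from point sets in dimension `n + 1` to sequences in dimension `n`, the exponent `e ≥ 1` of the
logarithm is kept -/
theorem seq_pow (n : ℕ) (e : ℝ) (he0 : 1 ≤ e) (r : ℕ)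
    (hstar : ∃ C : ℝ, 0 < C ∧ ∀ N : ℕ, 3 ≤ N →
      ∃ ξ : Fin N → Fin (n + 1) → ℝ, (∀ i j, 0 ≤ ξ i j ∧ ξ i j < 1) ∧
      ∀ x : Fin (n + 1) → ℝ, (∀ j, 0 ≤ x j) → (∀ j, x j ≤ 1) →
      |(((Finset.univ : Finset (Fin N)).filter (fun i => ∀ j, ξ i j < x j)).card : ℝ)
        - N * ∏ j, x j| ≤ C * (Real.log N) ^ e * (Real.log (Real.log N)) ^ r) :
    ∃ z : ℕ → Fin n → ℝ,
    (∀ k j, 0 ≤ z k j ∧ z k j < 1) ∧
    ∃ C : ℝ, 0 < C ∧ ∀ N : ℕ, 3 ≤ N → discrepancy z N ≤
      ENNReal.ofReal (C * (Real.log N) ^ e *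
        (Real.log (Real.log N)) ^ r / N) := by
  obtain ⟨C, hC, h⟩ := hstar
  have hl4 : Real.log 4 ≤ 3 := by
    have := Real.log_le_sub_one_of_pos (show (0:ℝ) < 4 by norm_num)
    linarith
  have hl40 : 0 ≤ Real.log 4 := Real.log_nonneg (by norm_num)
  obtain ⟨C', hC', z, hz, hzE⟩ := H739SQ.seq_of_sets (d := n)
    (fun t => t ^ e * (1 + Real.log t) ^ r) (4 ^ e * 4 ^ r) C hC.le
    (by positivity)
    (fun t ht => by
      have ht0 : 0 < t := by linarith
      have hlt : 0 ≤ Real.log t := Real.log_nonneg (by linarith)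
      show t ^ e * (1 + Real.log t) ^ r ≤
        1 / 2 * ((4 * t) ^ e * (1 + Real.log (4 * t)) ^ r)
      rw [Real.mul_rpow (by norm_num) (by linarith), Real.log_mul (by norm_num) ht0.ne']
      have h1 : (2:ℝ) ≤ 4 ^ e := by
        calc (2:ℝ) ≤ 4 ^ (1:ℝ) := by norm_num
          _ ≤ 4 ^ e := Real.rpow_le_rpow_of_exponent_le (by norm_num) he0
      have h2 : 0 ≤ t ^ e := Real.rpow_nonneg (by linarith) _
      have h3 : (1 + Real.log t) ^ r ≤ (1 + (Real.log 4 + Real.log t)) ^ r :=
        pow_le_pow_left₀ (by linarith) (by linarith) r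
      calc t ^ e * (1 + Real.log t) ^ r
          ≤ t ^ e * (1 + (Real.log 4 + Real.log t)) ^ r :=
            mul_le_mul_of_nonneg_left h3 h2
        _ = 1 / 2 * (2 * t ^ e * (1 + (Real.log 4 + Real.log t)) ^ r) := by ring
        _ ≤ 1 / 2 * (4 ^ e * t ^ e *
            (1 + (Real.log 4 + Real.log t)) ^ r) := by
            refine mul_le_mul_of_nonneg_left ?_ (by norm_num)
            exact mul_le_mul_of_nonneg_right (mul_le_mul_of_nonneg_right h1 h2) (by positivity))
    (fun t s ht hs hts => by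
      have hls : 0 ≤ Real.log s := Real.log_nonneg hs.le
      have hlt : 0 ≤ Real.log t := Real.log_nonneg (by linarith)
      show t ^ e * (1 + Real.log t) ^ r ≤
        4 ^ e * 4 ^ r * (s ^ e * (1 + Real.log s) ^ r)
      have h1 : t ^ e ≤ 4 ^ e * s ^ e := by
        rw [← Real.mul_rpow (by norm_num) (by linarith)]
        exact Real.rpow_le_rpow (by linarith) hts (by linarith)
      have h2 : 1 + Real.log t ≤ 4 * (1 + Real.log s) := by
        have h3 : Real.log t ≤ Real.log 4 + Real.log s := by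
          rw [← Real.log_mul (by norm_num) (by linarith)]
          exact Real.log_le_log (by linarith) hts
        linarith
      have h3 : (1 + Real.log t) ^ r ≤ (4 * (1 + Real.log s)) ^ r :=
        pow_le_pow_left₀ (by linarith) h2 r
      have h4 : 0 ≤ s ^ e := Real.rpow_nonneg (by linarith) _
      calc t ^ e * (1 + Real.log t) ^ r
          ≤ (4 ^ e * s ^ e) * (4 * (1 + Real.log s)) ^ r :=
            mul_le_mul h1 h3 (by positivity) (by positivity)
        _ = _ := by rw [mul_pow]; ring)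
    (fun s hs => by
      have h1 : 1 ≤ s ^ e := Real.one_le_rpow hs.le (by linarith)
      have h2 : (1:ℝ) ≤ (1 + Real.log s) ^ r :=
        one_le_pow₀ (by linarith [Real.log_nonneg hs.le])
      nlinarith)
    (fun M hM => by
      obtain ⟨ξ, hξ, hb⟩ := h M hM
      refine ⟨ξ, hξ, fun x hx0 hx1 => (hb x hx0 hx1).trans ?_⟩
      have hs1 := one_lt_log hM
      have hll : 0 ≤ Real.log (Real.log M) := Real.log_nonneg hs1.le
      have h1 : 0 ≤ Real.log M ^ e := Real.rpow_nonneg (by linarith) _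
      have h2 : Real.log (Real.log M) ^ r ≤ (1 + Real.log (Real.log M)) ^ r :=
        pow_le_pow_left₀ hll (by linarith) r
      show C * Real.log M ^ e * Real.log (Real.log M) ^ r ≤
        C * (Real.log M ^ e * (1 + Real.log (Real.log M)) ^ r)
      rw [mul_assoc]
      exact mul_le_mul_of_nonneg_left (mul_le_mul_of_nonneg_left h2 h1) hC.le)
  obtain ⟨b, hb⟩ : ∃ b : ℝ, b = Real.log (Real.log 3) := ⟨_, rfl⟩
  have hb0 : 0 < b := by rw [hb]; exact Real.log_pos one_lt_log_three
  refine ⟨z, hz, 2 ^ n * ((C' + 1) * (1 / b + 1) ^ r), by positivity, fun N hN => ?_⟩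
  refine (disc_le (by omega) hz (hzE N hN)).trans ?_
  apply ENNReal.ofReal_le_ofReal
  have hN0 : (0:ℝ) < N := by exact_mod_cast (by omega : 0 < N)
  apply div_le_div_of_nonneg_right _ hN0.le
  have hs1 := one_lt_log hN
  have hll : b ≤ Real.log (Real.log N) := by
    rw [hb]
    exact Real.log_le_log (by linarith [one_lt_log_three])
      (Real.log_le_log (by norm_num) (by exact_mod_cast hN))
  have h1 : 1 + Real.log (Real.log N) ≤ (1 / b + 1) * Real.log (Real.log N) := by
    have : 1 ≤ 1 / b * Real.log (Real.log N) := by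
      rw [one_div, ← div_eq_inv_mul, le_div_iff₀ hb0]
      linarith
    linarith
  have h2 : (1 + Real.log (Real.log N)) ^ r ≤ ((1 / b + 1) * Real.log (Real.log N)) ^ r :=
    pow_le_pow_left₀ (by linarith) h1 r
  have h3 : 0 ≤ Real.log N ^ e := Real.rpow_nonneg (by linarith) _
  have h4 : 0 ≤ 1 + Real.log (Real.log N) := by linarith
  show 2 ^ n * (C' * (Real.log N ^ e * (1 + Real.log (Real.log N)) ^ r)) ≤
    2 ^ n * ((C' + 1) * (1 / b + 1) ^ r) * Real.log N ^ e *
      Real.log (Real.log N) ^ r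
  calc 2 ^ n * (C' * (Real.log N ^ e * (1 + Real.log (Real.log N)) ^ r))
      ≤ 2 ^ n * ((C' + 1) * (Real.log N ^ e *
          ((1 / b + 1) * Real.log (Real.log N)) ^ r)) := by
        apply mul_le_mul_of_nonneg_left _ (by positivity)
        apply mul_le_mul (by linarith) (mul_le_mul_of_nonneg_left h2 h3) (by positivity)
          (by linarith)
    _ = _ := by rw [mul_pow]; ring

/-- a power saving beats every multiple of a slightly larger power -/
lemma eventually_lt {D : ℕ → ENNReal} {C a b : ℝ} (r : ℕ) (hC : 0 < C) (hab : a < b)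
    (h : ∀ N : ℕ, 3 ≤ N → D N ≤ ENNReal.ofReal (C * (Real.log N) ^ a *
      (Real.log (Real.log N)) ^ r / N)) :
    ∀ c : ℝ, 0 < c → ∀ᶠ N : ℕ in atTop, D N < ENNReal.ofReal (c * (Real.log N) ^ b / N) := by
  intro c hc
  have t1 : Tendsto (fun N : ℕ => Real.log (N:ℝ)) atTop atTop :=
    Real.tendsto_log_atTop.comp tendsto_natCast_atTop_atTop
  have h0 : Tendsto (fun x : ℝ => Real.log x ^ r / x ^ (b - a)) atTop (nhds 0) := by
    have h1 : (fun x : ℝ => Real.log x ^ (r:ℝ)) =o[atTop] fun x => x ^ (b - a) :=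
      isLittleO_log_rpow_rpow_atTop r (by linarith)
    have h2 := h1.tendsto_div_nhds_zero
    refine h2.congr fun x => ?_
    rw [Real.rpow_natCast]
  have h1 := (h0.comp t1).eventually (gt_mem_nhds (show (0:ℝ) < c / C by positivity))
  filter_upwards [h1, eventually_ge_atTop 3] with N h2 h3
  refine (h N h3).trans_lt ?_
  have hN0 : (0:ℝ) < N := by exact_mod_cast (by omega : 0 < N)
  have hs1 := one_lt_log h3
  have hs0 : 0 < Real.log N := by linarith
  rw [ENNReal.ofReal_lt_ofReal_iff (by positivity)]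
  apply div_lt_div_of_pos_right _ hN0
  have h4 : 0 < Real.log N ^ a := Real.rpow_pos_of_pos hs0 _
  have h6 : 0 < Real.log N ^ (b - a) := Real.rpow_pos_of_pos hs0 _
  have h5 : Real.log N ^ b = Real.log N ^ (b - a) * Real.log N ^ a := by
    rw [← Real.rpow_add hs0]; congr 1; ring
  have h7 : Real.log (Real.log N) ^ r / Real.log N ^ (b - a) < c / C := h2
  rw [div_lt_div_iff₀ h6 hC] at h7
  rw [h5]
  calc C * Real.log N ^ a * Real.log (Real.log N) ^ r
      = (Real.log (Real.log N) ^ r * C) * Real.log N ^ a := by ring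
    _ < (c * Real.log N ^ (b - a)) * Real.log N ^ a := mul_lt_mul_of_pos_right h7 h4
    _ = _ := by ring

end Pool.Agent.H610.Seq
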